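import Pool.Agent.K1H5.PLN.Stm2
import Pool.Agent.K1H8.PLN.Alg

set_option autoImplicit false

/-! Piece EIG of the project PLN. -/

namespace Pool.Agent.K1H59.PLN

open Matrix Pool.Agent.K1H5.PLN

theorem t_EIG : S_EIG := by
  rintro n A S b M ⟨S', hS, hS', h1, h2⟩ hb hM h
  have hM0 : (M : ℝ) ≠ 0 := by exact_mod_cast hM.ne'
  have hS'v : S' *ᵥ b = (M : ℝ)⁻¹ • b := by
    have h3 : S' *ᵥ (S *ᵥ b) = b := by
      rw [Matrix.mulVec_mulVec, h2, Matrix.one_mulVec]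
    rw [h, Matrix.mulVec_smul] at h3
    calc S' *ᵥ b = (M : ℝ)⁻¹ • ((M : ℝ) • (S' *ᵥ b)) := by
          rw [smul_smul, inv_mul_cancel₀ hM0, one_smul]
      _ = (M : ℝ)⁻¹ • b := by rw [h3]
  exact Pool.Agent.K1H8.PLN.inv_mem_of_integral A M (natCast_mem A M) hM0
    (Pool.Agent.K1H8.PLN.integral_of_eigen A S' hS' _ b hb hS'v)

end Pool.Agent.K1H59.PLN
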