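import Pool.Agent.K1H5.PLN.Stm

set_option autoImplicit false

/-! Piece PT of the project PLN: choice of a frontier point whose backward orbit is simple. -/

namespace Pool.Agent.K1H59.PLN

open Matrix Topology Filter Set
open Pool.Agent.K1H5.PLN

variable {n : ℕ}

theorem ev_line (l : V n × ℝ) (x y : V n) (s : ℝ) :
    ev l (x + s • y) = ev l x + s * (l.1 ⬝ᵥ y) := by
  unfold ev
  rw [dotProduct_add, dotProduct_smul, smul_eq_mul]
  ring

theorem ev_sub (l : V n × ℝ) (x y : V n) : l.1 ⬝ᵥ (x - y) = ev l x - ev l y := by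
  unfold ev
  rw [dotProduct_sub]
  ring

theorem ev_cont (l : V n × ℝ) : Continuous (fun x : V n => ev l x) := by
  unfold ev
  fun_prop

theorem dense_ev (l : V n × ℝ) (hl : l.1 ≠ 0) : Dense {x : V n | ev l x ≠ 0} := by
  have hpos : 0 < l.1 ⬝ᵥ l.1 := by
    have h0 : 0 ≤ l.1 ⬝ᵥ l.1 := by
      unfold dotProduct
      exact Finset.sum_nonneg (fun i _ => mul_self_nonneg _)
    have h1 : l.1 ⬝ᵥ l.1 ≠ 0 := fun h => hl (dotProduct_self_eq_zero.mp h)
    exact lt_of_le_of_ne h0 h1.symm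
  rw [dense_iff_inter_open]
  intro O hO hne
  obtain ⟨x, hx⟩ := hne
  by_cases h0 : ev l x = 0
  · have hc : Continuous (fun s : ℝ => x + s • l.1) := by fun_prop
    have ho : IsOpen ((fun s : ℝ => x + s • l.1) ⁻¹' O) := hO.preimage hc
    have hm : (0 : ℝ) ∈ ((fun s : ℝ => x + s • l.1) ⁻¹' O) := by
      simpa using hx
    obtain ⟨ε, hε, hb⟩ := Metric.isOpen_iff.mp ho 0 hm
    have hm2 : (ε / 2 : ℝ) ∈ Metric.ball (0 : ℝ) ε := by
      rw [Metric.mem_ball, Real.dist_eq, sub_zero, abs_of_pos (by positivity)]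
      linarith
    refine ⟨x + (ε / 2) • l.1, hb hm2, ?_⟩
    show ev l (x + (ε / 2) • l.1) ≠ 0
    rw [ev_line, h0, zero_add]
    positivity
  · exact ⟨x, hx, h0⟩

theorem open_ev (l : V n × ℝ) : IsOpen {x : V n | ev l x ≠ 0} :=
  isOpen_ne.preimage (ev_cont l)

/-- independent pairs -/
def Ind (q : (V n × ℝ) × (V n × ℝ)) : Prop :=
  ∀ r s : ℝ, r • q.1.1 + s • q.2.1 = 0 → r = 0 ∧ s = 0

def Thin (Z : Set (V n)) : Prop :=
  ∃ S : Set ((V n × ℝ) × (V n × ℝ)), S.Countable ∧ (∀ q ∈ S, Ind q) ∧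
    ∀ x ∈ Z, ∃ q ∈ S, ev q.1 x = 0 ∧ ev q.2 x = 0

theorem thin_bad (Λ : Set (V n × ℝ)) (hΛ : Λ.Finite) (h0 : ∀ l ∈ Λ, l.1 ≠ 0) :
    Thin {x | ¬ Simple Λ x} := by
  refine ⟨{q ∈ Λ ×ˢ Λ | Ind q}, ?_, ?_, ?_⟩
  · exact ((hΛ.prod hΛ).countable).mono (fun q hq => hq.1)
  · intro q hq
    exact hq.2
  · intro x hx
    simp only [mem_setOf_eq, Simple, not_forall] at hx
    obtain ⟨l, hl, l', hl', e, e', hc⟩ := hx
    refine ⟨(l, l'), ⟨⟨hl, hl'⟩, ?_⟩, e, e'⟩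
    intro r s hrs
    have hrs' : r • l.1 + s • l'.1 = 0 := hrs
    have hs : s = 0 := by
      by_contra hs
      apply hc
      have e1 : l'.1 = (-(r / s)) • l.1 := by
        have e2 : s • l'.1 = (-r) • l.1 := by
          rw [neg_smul]
          exact eq_neg_of_add_eq_zero_right hrs'
        have e3 : s⁻¹ • (s • l'.1) = s⁻¹ • ((-r) • l.1) := by rw [e2]
        rw [smul_smul, smul_smul, inv_mul_cancel₀ hs, one_smul] at e3
        rw [e3]
        congr 1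
        field_simp
      refine ⟨-(r / s), ?_, e1⟩
      intro h
      rw [h, zero_smul] at e1
      exact h0 _ hl' e1
    subst hs
    rw [zero_smul, add_zero, smul_eq_zero] at hrs'
    rcases hrs' with h | h
    · exact ⟨h, rfl⟩
    · exact absurd h (h0 _ hl)

/-- every point is moved by one of the affine maps -/
theorem exists_affine (t : V n ≃ₜ V n) (Λ : Finset (V n × ℝ))
    (G : Finset (Matrix (Fin n) (Fin n) ℝ × V n)) (hD : Data ⊤ t Λ G) (x : V n) :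
    ∃ g ∈ G, t x = g.1 *ᵥ x + g.2 := by
  obtain ⟨h1, h2, h3⟩ := hD
  have hd : Dense (⋂ l ∈ (Λ : Set (V n × ℝ)), {x : V n | ev l x ≠ 0}) :=
    dense_biInter_of_isOpen (fun l _ => open_ev l) Λ.countable_toSet
      (fun l hl => dense_ev l (h1 l hl))
  have hcl : IsClosed (⋃ g ∈ (G : Set (Matrix (Fin n) (Fin n) ℝ × V n)),
      {x : V n | t x = g.1 *ᵥ x + g.2}) := by
    apply Set.Finite.isClosed_biUnion G.finite_toSet
    intro g _
    apply isClosed_eq t.continuous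
    fun_prop
  have hsub : (⋂ l ∈ (Λ : Set (V n × ℝ)), {x : V n | ev l x ≠ 0}) ⊆
      (⋃ g ∈ (G : Set (Matrix (Fin n) (Fin n) ℝ × V n)), {x : V n | t x = g.1 *ᵥ x + g.2}) := by
    intro y hy
    simp only [mem_iInter, mem_setOf_eq, Finset.mem_coe] at hy
    obtain ⟨g, hg, hgy⟩ := h3 y hy
    simp only [mem_iUnion, mem_setOf_eq, Finset.mem_coe]
    exact ⟨g, hg, hgy y (fun l hl => mul_self_pos.mpr (hy l hl))⟩
  have hall := hcl.closure_subset_iff.mpr hsub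
  rw [hd.closure_eq] at hall
  have hx := hall (mem_univ x)
  simp only [mem_iUnion, mem_setOf_eq, Finset.mem_coe] at hx
  obtain ⟨g, hg, e⟩ := hx
  exact ⟨g, hg, e⟩

/-- transport of functionals by an affine bijection -/
noncomputable def tr (g : Matrix (Fin n) (Fin n) ℝ × V n) (l : V n × ℝ) : V n × ℝ :=
  (l.1 ᵥ* g.1⁻¹, l.2 - (l.1 ᵥ* g.1⁻¹) ⬝ᵥ g.2)

theorem ev_tr (g : Matrix (Fin n) (Fin n) ℝ × V n) (hg : IsUnit g.1.det) (l : V n × ℝ) (x : V n) :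
    ev (tr g l) (g.1 *ᵥ x + g.2) = ev l x := by
  unfold ev tr
  simp only [dotProduct_add]
  rw [dotProduct_mulVec, vecMul_vecMul, Matrix.nonsing_inv_mul _ hg, vecMul_one]
  ring

theorem ind_tr (g : Matrix (Fin n) (Fin n) ℝ × V n) (hg : IsUnit g.1.det)
    (q : (V n × ℝ) × (V n × ℝ)) (hq : Ind q) : Ind (tr g q.1, tr g q.2) := by
  intro r s h
  apply hq r s
  have h1 : r • (q.1.1 ᵥ* g.1⁻¹) + s • (q.2.1 ᵥ* g.1⁻¹) = 0 := h
  have h2 : (r • q.1.1 + s • q.2.1) ᵥ* g.1⁻¹ = 0 := by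
    rw [add_vecMul, smul_vecMul, smul_vecMul]
    exact h1
  have h3 : ((r • q.1.1 + s • q.2.1) ᵥ* g.1⁻¹) ᵥ* g.1 = 0 := by
    rw [h2, zero_vecMul]
  rw [vecMul_vecMul, Matrix.nonsing_inv_mul _ hg, vecMul_one] at h3
  exact h3

theorem thin_image (t : V n ≃ₜ V n) (ht : IsPL ⊤ t) (Z : Set (V n)) (hZ : Thin Z) :
    Thin (t '' Z) := by
  obtain ⟨Λ, G, hD⟩ := ht
  obtain ⟨S, hS1, hS2, hS3⟩ := hZ
  have hu : ∀ g ∈ G, IsUnit g.1.det := by
    intro g hg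
    obtain ⟨M', -, -, h1, h2⟩ := hD.2.1 g hg
    exact Matrix.isUnit_det_of_left_inverse h2
  refine ⟨(fun p : (Matrix (Fin n) (Fin n) ℝ × V n) × ((V n × ℝ) × (V n × ℝ)) =>
    (tr p.1 p.2.1, tr p.1 p.2.2)) '' ((G : Set _) ×ˢ S), ?_, ?_, ?_⟩
  · exact (G.countable_toSet.prod hS1).image _
  · rintro q ⟨p, hp, rfl⟩
    exact ind_tr p.1 (hu _ hp.1) p.2 (hS2 _ hp.2)
  · rintro y ⟨x, hx, rfl⟩
    obtain ⟨q, hq, e1, e2⟩ := hS3 x hx
    obtain ⟨g, hg, e⟩ := exists_affine t Λ G hD x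
    refine ⟨(tr g q.1, tr g q.2), ⟨(g, q), ⟨hg, hq⟩, rfl⟩, ?_, ?_⟩
    · rw [e, ev_tr g (hu g hg), e1]
    · rw [e, ev_tr g (hu g hg), e2]

theorem thin_pow (t : V n ≃ₜ V n) (ht : IsPL ⊤ t) (Z : Set (V n)) (hZ : Thin Z) (i : ℕ) :
    Thin ((t ^ i) '' Z) := by
  induction i with
  | zero =>
    have e : ((t ^ 0 : V n ≃ₜ V n) '' Z) = Z := by
      rw [pow_zero]
      ext x
      constructor
      · rintro ⟨y, hy, rfl⟩
        exact hy
      · intro hx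
        exact ⟨x, hx, rfl⟩
    rw [e]
    exact hZ
  | succ i ih =>
    have e : ((t ^ (i + 1) : V n ≃ₜ V n) '' Z) = t '' ((t ^ i) '' Z) := by
      rw [pow_succ']
      ext x
      constructor
      · rintro ⟨y, hy, rfl⟩
        exact ⟨(t ^ i) y, ⟨y, hy, rfl⟩, rfl⟩
      · rintro ⟨y, ⟨w, hw, rfl⟩, rfl⟩
        exact ⟨w, hw, rfl⟩
    rw [e]
    exact thin_image t ht _ ih

theorem thin_iUnion (Z : ℕ → Set (V n)) (hZ : ∀ i, Thin (Z i)) : Thin (⋃ i, Z i) := by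
  choose S h1 h2 h3 using hZ
  refine ⟨⋃ i, S i, Set.countable_iUnion h1, ?_, ?_⟩
  · intro q hq
    obtain ⟨i, hi⟩ := mem_iUnion.mp hq
    exact h2 i q hi
  · intro x hx
    obtain ⟨i, hi⟩ := mem_iUnion.mp hx
    obtain ⟨q, hq, e⟩ := h3 i x hi
    exact ⟨q, mem_iUnion.mpr ⟨i, hq⟩, e⟩

/-- the functional vanishing on the cone over `Q q` with apex `b` -/
noncomputable def cone (b : V n) (q : (V n × ℝ) × (V n × ℝ)) : V n × ℝ :=
  if ev q.1 b = 0 ∧ ev q.2 b = 0 then q.1 else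
    (ev q.2 b • q.1.1 + (-ev q.1 b) • q.2.1, ev q.2 b * q.1.2 + (-ev q.1 b) * q.2.2)

theorem cone_ne (b : V n) (q : (V n × ℝ) × (V n × ℝ)) (hq : Ind q) : (cone b q).1 ≠ 0 := by
  unfold cone
  split_ifs with h
  · intro h0
    have := hq 1 0 (by rw [h0, smul_zero, zero_smul, add_zero])
    exact one_ne_zero this.1
  · intro h0
    have h1 : ev q.2 b • q.1.1 + (-ev q.1 b) • q.2.1 = 0 := h0
    have h2 := hq _ _ h1
    exact h ⟨neg_eq_zero.mp h2.2, h2.1⟩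

theorem cone_ev (b y : V n) (s : ℝ) (q : (V n × ℝ) × (V n × ℝ)) (h1 : ev q.1 y = 0)
    (h2 : ev q.2 y = 0) : ev (cone b q) (b + s • (y - b)) = 0 := by
  have e1 : ev q.1 (b + s • (y - b)) = ev q.1 b * (1 - s) := by
    rw [ev_line, ev_sub, h1]
    ring
  have e2 : ev q.2 (b + s • (y - b)) = ev q.2 b * (1 - s) := by
    rw [ev_line, ev_sub, h2]
    ring
  unfold cone
  split_ifs with h
  · rw [e1, h.1, zero_mul]
  · have e3 : ∀ x : V n, ev (ev q.2 b • q.1.1 + (-ev q.1 b) • q.2.1,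
        ev q.2 b * q.1.2 + (-ev q.1 b) * q.2.2) x = ev q.2 b * ev q.1 x - ev q.1 b * ev q.2 x := by
      intro x
      unfold ev
      simp only [add_dotProduct, smul_dotProduct, smul_eq_mul]
      ring
    rw [e3, e1, e2]
    ring

theorem t_PT : S_PT := by
  intro n t ht Λ hΛ h0 U hU hne b hb
  have hthin : Thin (⋃ i : ℕ, (t ^ i) '' {x | ¬ Simple Λ x}) :=
    thin_iUnion _ (fun i => thin_pow t ht _ (thin_bad Λ hΛ h0) i)
  obtain ⟨S, hS1, hS2, hS3⟩ := hthin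
  have hd : Dense (⋂ q ∈ S, {x : V n | ev (cone b q) x ≠ 0}) :=
    dense_biInter_of_isOpen (fun q _ => open_ev _) hS1 (fun q hq => dense_ev _ (cone_ne b q (hS2 q hq)))
  obtain ⟨x, hxU, hx⟩ := (dense_iff_inter_open.mp hd) U hU hne
  simp only [mem_iInter, mem_setOf_eq] at hx
  have hc : Continuous (fun θ : ℝ => b + θ • (x - b)) := by fun_prop
  have hfr : (frontier ((fun θ : ℝ => b + θ • (x - b)) ⁻¹' U)).Nonempty := by
    rw [nonempty_frontier_iff]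
    refine ⟨⟨1, ?_⟩, ?_⟩
    · show b + (1 : ℝ) • (x - b) ∈ U
      rw [one_smul, add_sub_cancel]
      exact hxU
    · intro h
      have : (0 : ℝ) ∈ ((fun θ : ℝ => b + θ • (x - b)) ⁻¹' U) := by
        rw [h]
        exact mem_univ _
      have h' : b + (0 : ℝ) • (x - b) ∈ U := this
      rw [zero_smul, add_zero] at h'
      exact hb (subset_closure h')
  obtain ⟨θ, hθ⟩ := hfr
  have hz : b + θ • (x - b) ∈ frontier U := hc.frontier_preimage_subset U hθ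
  have hθ0 : θ ≠ 0 := by
    rintro rfl
    rw [zero_smul, add_zero] at hz
    exact hb (frontier_subset_closure hz)
  refine ⟨b + θ • (x - b), hz, ?_⟩
  intro i
  by_contra hns
  have hmem : b + θ • (x - b) ∈ ⋃ i : ℕ, (t ^ i) '' {x | ¬ Simple Λ x} := by
    rw [mem_iUnion]
    refine ⟨i, (t⁻¹ ^ i) (b + θ • (x - b)), hns, ?_⟩
    rw [← Homeomorph.mul_apply, inv_pow, mul_inv_cancel]
    rfl
  obtain ⟨q, hq, e1, e2⟩ := hS3 _ hmem
  have hk := cone_ev b (b + θ • (x - b)) θ⁻¹ q e1 e2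
  have hk2 : b + θ⁻¹ • (b + θ • (x - b) - b) = x := by
    rw [add_sub_cancel_left, smul_smul, inv_mul_cancel₀ hθ0, one_smul, add_sub_cancel]
  rw [hk2] at hk
  exact hx q hq hk

end Pool.Agent.K1H59.PLN
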